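import Pool.Agent.H9.FCM.All

/-!
# A model of ZFC in which the cardinal `b_b^eq` is smaller than `non(E)` for a summable `b`

There are an omega-model `(N, E)` of ZFC, a function `b` of the model with `∑ 1/b(k) < ∞` and a set
`F` of the model, which is a family of elements of `∏ b`, such that, in the model, `F` has no bound
`(J, h)` for the relation `⊏•` (so `b_b^eq ≤ |F|`), and every set of at most `|F|` elements of
Cantor space belongs to the ideal generated by the closed measure zero sets (so `|F| < non(E)`).
Moreover the same family is unbounded in `∏ b'` for all `b' ≥ b`.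

The model is obtained by forcing with a finite support iteration of a bounded slalom forcing, and
the proof includes the construction of Boolean valued models of ZFC.
-/

namespace Pool.Agent.Results.MP_00464d_lc.SeparatingModel

open Pool.Agent.H9.FC

theorem result :
    ∃ (N : Type 1) (E : N → N → Prop), ZFCModel E ∧ OmegaModel E ∧
      ∃ b : ℕ → ℕ, (∀ k, 1 ≤ b k) ∧ Summable (fun k => (1 : ℝ) / b k) ∧ InModel E b ∧
        ∃ F, SmallerThanNonE E F ∧
          ∀ b' : ℕ → ℕ, (∀ k, b k ≤ b' k) → UnboundedFamily E b' F :=
  Pool.Agent.H9.FCM.All.goal

end Pool.Agent.Results.MP_00464d_lc.SeparatingModel
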